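import Pool.Agent.Helper27.VF.Goals

/-!
# Project VF, packet APP: virtually free groups
-/

set_option autoImplicit false

namespace Pool.Agent.Helper58.VF

open Pool.Agent.Helper27.VF Filter

universe u v

/-- A free group which is finitely generated has finitely many free generators. -/
theorem finite_of_fg (α : Type u) (h : Group.FG (FreeGroup α)) : Finite α := by
  classical
  obtain ⟨S, hS⟩ := Group.fg_iff'.1 h
  obtain ⟨T, -, hT⟩ := hS
  let φ : FreeGroup α →* Multiplicative (α →₀ ℤ) :=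
    FreeGroup.lift fun a => Multiplicative.ofAdd (Finsupp.single a 1)
  let U : Finset α := T.biUnion fun g => (Multiplicative.toAdd (φ g)).support
  have key : ∀ g ∈ Subgroup.closure (T : Set (FreeGroup α)),
      ∀ a, a ∉ U → (Multiplicative.toAdd (φ g)) a = 0 := by
    intro g hg
    induction hg using Subgroup.closure_induction with
    | mem x hx =>
      intro a ha
      by_contra hne
      exact ha (Finset.mem_biUnion.2 ⟨x, Finset.mem_coe.1 hx, Finsupp.mem_support_iff.2 hne⟩)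
    | one => intro a _; rw [map_one]; rfl
    | mul x y _ _ hx hy =>
      intro a ha
      rw [map_mul, toAdd_mul, Finsupp.add_apply, hx a ha, hy a ha, add_zero]
    | inv x _ hx =>
      intro a ha
      rw [map_inv, toAdd_inv, Finsupp.neg_apply, hx a ha, neg_zero]
  have hall : ∀ a : α, a ∈ U := by
    intro a
    by_contra ha
    have h1 := key (FreeGroup.of a) (by rw [hT]; exact Subgroup.mem_top _) a ha
    have h2 : φ (FreeGroup.of a) = Multiplicative.ofAdd (Finsupp.single a 1) :=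
      FreeGroup.lift_apply_of
    rw [h2, toAdd_ofAdd, Finsupp.single_eq_same] at h1
    exact one_ne_zero h1
  exact Finite.of_injective (fun a => (⟨a, hall a⟩ : U)) fun a b hab => by
    simpa using hab

/-- An element of the subgroup generated by `S` is generated by a finite part of `S`. -/
theorem exists_finset {Γ : Type u} [Group Γ] (S : Set Γ) : ∀ g ∈ Subgroup.closure S,
    ∃ F : Finset Γ, (F : Set Γ) ⊆ S ∧ g ∈ Subgroup.closure (F : Set Γ) := by
  classical
  intro g hg
  induction hg using Subgroup.closure_induction with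
  | mem x hx =>
    exact ⟨{x}, by simpa using hx, Subgroup.subset_closure (by simp)⟩
  | one => exact ⟨∅, by simp, Subgroup.one_mem _⟩
  | mul x y _ _ hx hy =>
    obtain ⟨F, h1, h2⟩ := hx
    obtain ⟨F', h1', h2'⟩ := hy
    refine ⟨F ∪ F', by rw [Finset.coe_union]; exact Set.union_subset h1 h1', ?_⟩
    rw [Finset.coe_union]
    exact Subgroup.mul_mem _ (Subgroup.closure_mono Set.subset_union_left h2)
      (Subgroup.closure_mono Set.subset_union_right h2')
  | inv x _ hx =>
    obtain ⟨F, h1, h2⟩ := hx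
    exact ⟨F, h1, Subgroup.inv_mem _ h2⟩

/-- A finitely generated group is generated by a finite part of each generating set. -/
theorem exists_gen {Γ : Type u} [Group Γ] (hG : Group.FG Γ) (S : Set Γ)
    (hS : Subgroup.closure S = ⊤) :
    ∃ F : Set Γ, F.Finite ∧ F ⊆ S ∧ Subgroup.closure F = ⊤ := by
  classical
  obtain ⟨n, T, -, hT⟩ := Group.fg_iff'.1 hG
  choose F hF1 hF2 using fun g : Γ => exists_finset S g (by rw [hS]; exact Subgroup.mem_top _)
  refine ⟨⋃ g ∈ T, (F g : Set Γ), ?_, ?_, ?_⟩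
  · exact Set.Finite.biUnion T.finite_toSet fun g _ => (F g).finite_toSet
  · exact Set.iUnion₂_subset fun g _ => hF1 g
  · rw [eq_top_iff, ← hT, Subgroup.closure_le]
    intro g hg
    exact Subgroup.closure_mono
      (Set.subset_biUnion_of_mem (u := fun g => (F g : Set Γ)) hg) (hF2 g)

/-- The Cayley graph. -/
def cay {Γ : Type u} [Group Γ] (S : Set Γ) : SimpleGraph Γ :=
  SimpleGraph.fromRel fun a b : Γ => a⁻¹ * b ∈ S

theorem cay_adj {Γ : Type u} [Group Γ] {S : Set Γ} {a b : Γ} :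
    (cay S).Adj a b ↔ a ≠ b ∧ (a⁻¹ * b ∈ S ∨ b⁻¹ * a ∈ S) := Iff.rfl

theorem cay_mul {Γ : Type u} [Group Γ] {S : Set Γ} (g : Γ) {a b : Γ} (h : (cay S).Adj a b) :
    (cay S).Adj (g * a) (g * b) := by
  rw [cay_adj] at h ⊢
  have e : ∀ a b : Γ, (g * a)⁻¹ * (g * b) = a⁻¹ * b := by intro a b; group
  rw [e, e]
  exact ⟨fun h1 => h.1 (mul_left_cancel h1), h.2⟩

theorem cay_reach {Γ : Type u} [Group Γ] {S : Set Γ} :
    ∀ g ∈ Subgroup.closure S, ∀ x : Γ, (cay S).Reachable x (x * g) := by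
  intro g hg
  induction hg using Subgroup.closure_induction with
  | mem s hs =>
    intro x
    by_cases h : x = x * s
    · rw [← h]
    · refine SimpleGraph.Adj.reachable (cay_adj.2 ⟨h, Or.inl ?_⟩)
      rw [inv_mul_cancel_left]; exact hs
  | one => intro x; rw [mul_one]
  | mul a b _ _ ha hb =>
    intro x
    rw [← mul_assoc]
    exact (ha x).trans (hb (x * a))
  | inv a _ ha =>
    intro x
    have h := ha (x * a⁻¹)
    rw [inv_mul_cancel_right] at h
    exact h.symm

theorem cay_conn {Γ : Type u} [Group Γ] {S : Set Γ} (hS : Subgroup.closure S = ⊤) :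
    (cay S).Connected := by
  have : Nonempty Γ := ⟨1⟩
  refine SimpleGraph.Connected.mk ?_
  intro x y
  have h := cay_reach (x⁻¹ * y) (by rw [hS]; exact Subgroup.mem_top _) x
  rwa [mul_inv_cancel_left] at h

theorem cay_lf {Γ : Type u} [Group Γ] {S : Set Γ} (hS : S.Finite) (x : Γ) :
    {y | (cay S).Adj x y}.Finite := by
  refine ((hS.image fun s => x * s).union (hS.image fun s => x * s⁻¹)).subset ?_
  intro y hy
  rcases (cay_adj.1 hy).2 with h | h
  · exact Or.inl ⟨x⁻¹ * y, h, by group⟩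
  · exact Or.inr ⟨y⁻¹ * x, h, by group⟩

theorem cay_le {Γ : Type u} [Group Γ] {S T : Set Γ} (h : T ⊆ S) : cay T ≤ cay S := by
  intro a b hab
  rw [cay_adj] at hab ⊢
  exact ⟨hab.1, hab.2.imp (fun h1 => h h1) (fun h1 => h h1)⟩

/-- The setting. -/
theorem setting {Γ : Type u} [Group Γ] (hG : Group.FG Γ) (A : Subgroup Γ) (hA : A.FiniteIndex)
    (S : Set Γ) (hS : Subgroup.closure S = ⊤) (h1 : (1 : Γ) ∉ S) (hinf : S.Infinite) :
    ∃ (G₀ : SimpleGraph Γ) (p : Ultrafilter Γ), Stg A (cay S) G₀ (1 : Γ) p := by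
  classical
  obtain ⟨T, hT1, hT2, hT3⟩ := exists_gen hG S hS
  have : (cofinite ⊓ 𝓟 S : Filter Γ).NeBot := hinf.cofinite_inf_principal_neBot
  obtain ⟨p, hp⟩ : ∃ p : Ultrafilter Γ, (p : Filter Γ) ≤ cofinite ⊓ 𝓟 S :=
    ⟨Ultrafilter.of _, Ultrafilter.of_le _⟩
  have hpc : (p : Filter Γ) ≤ cofinite := hp.trans inf_le_left
  have hpS : S ∈ p := (hp.trans inf_le_right) (mem_principal_self S)
  refine ⟨cay T, p, ?_⟩
  refine { free := ?_, fin := ?_, le := cay_le hT2, inv := ?_, inv₀ := ?_, conn := cay_conn hT3,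
           lf := cay_lf hT1, nonp := ?_, nb := ?_ }
  · intro a x hax
    rw [Subgroup.smul_def, smul_eq_mul] at hax
    exact Subtype.ext (mul_eq_right.1 hax)
  · have := hA
    have : Finite (Γ ⧸ A) := Subgroup.finite_quotient_of_finiteIndex
    refine ⟨Set.range fun q : Γ ⧸ A => (Quotient.out q)⁻¹, Set.finite_range _, ?_⟩
    intro x
    have hq : (QuotientGroup.mk (Quotient.out (QuotientGroup.mk x⁻¹ : Γ ⧸ A)) : Γ ⧸ A) =
        QuotientGroup.mk x⁻¹ := QuotientGroup.out_eq' _
    have hm := QuotientGroup.eq.1 hq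
    refine ⟨⟨_, A.inv_mem hm⟩, _, ⟨(QuotientGroup.mk x⁻¹ : Γ ⧸ A), rfl⟩, ?_⟩
    rw [Subgroup.smul_def, smul_eq_mul]
    simp
  · intro a x y hxy
    exact cay_mul (a : Γ) hxy
  · intro a x y hxy
    exact cay_mul (a : Γ) hxy
  · intro F hF hFp
    have h2 : Fᶜ ∈ p := hpc hF.compl_mem_cofinite
    exact (Ultrafilter.compl_mem_iff_notMem.1 h2) hFp
  · refine Filter.mem_of_superset hpS ?_
    intro s hs
    refine cay_adj.2 ⟨?_, Or.inl ?_⟩
    · rintro rfl; exact h1 hs
    · rw [inv_one, one_mul]; exact hs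

theorem app (hI : IndStmt.{u}) (hK : KndStmt.{u}) : AppStmt.{u} := by
  intro Γ _ hG hA S hS _ h1 hinf
  obtain ⟨A, hAf, hfree⟩ := hA
  have := hfree
  have := hAf
  have := hG
  have hAG : Group.FG A := Subgroup.fg_of_index_ne_zero A
  have hfg : Group.FG (FreeGroup (IsFreeGroup.Generators A)) :=
    Group.fg_of_surjective (f := (IsFreeGroup.toFreeGroup A).toMonoidHom)
      (IsFreeGroup.toFreeGroup A).surjective
  have hfin : Finite (IsFreeGroup.Generators A) := finite_of_fg _ hfg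
  obtain ⟨m, ⟨e⟩⟩ := Finite.exists_equiv_fin (IsFreeGroup.Generators A)
  have hiso : Nonempty (FreeGroup (Fin m) ≃* A) :=
    ⟨(FreeGroup.freeGroupCongr e.symm).trans (IsFreeGroup.toFreeGroup A).symm⟩
  obtain ⟨G₀, p, hst⟩ := setting hG A hAf S hS h1 hinf
  obtain ⟨Z, hZ1, hZ2⟩ := hI m A Γ (cay S) G₀ 1 p hiso hst
  refine hK Γ (cay S) ((fun a : A => (a : Γ)) '' Z) (hZ1.image Subtype.val_injective.injOn) ?_
  rintro _ ⟨a, ha, rfl⟩ _ ⟨b, hb, rfl⟩ c hc ⟨hx, hy⟩
  have e1 : ∀ a : A, a • (1 : Γ) = (a : Γ) := fun a => by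
    rw [Subgroup.smul_def, smul_eq_mul, mul_one]
  refine hZ2 a ha b hb c hc ⟨fact1 hst hc ?_, fact1' hst hc ?_⟩
  · rw [e1]; exact hx
  · rw [e1]; exact hy

end Pool.Agent.Helper58.VF
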