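import Pool.Agent.Helper38.VF.Goals2
import Pool.Agent.Helper58.VF.APP

/-!
# Project VTF, packet AP2: virtually torsion-free groups
-/

set_option autoImplicit false

namespace Pool.Agent.Helper58.VF

open Pool.Agent.Helper27.VF Pool.Agent.Helper38.VF Filter

universe u

theorem ap2 (hI : In2Stmt.{u}) (hR : Rk2Stmt.{u}) (hK : KndStmt.{u}) : Ap2Stmt.{u} := by
  intro Γ _ hG hA S hS _ h1 hinf
  obtain ⟨A, hAf, htf⟩ := hA
  have := hAf
  have := hG
  have hAG : Group.FG A := Subgroup.fg_of_index_ne_zero A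
  obtain ⟨T, hT⟩ := Group.fg_iff'.1 hAG
  obtain ⟨F, -, hF⟩ := hT
  have hTF : TF A := fun a n hn h =>
    Subtype.ext (htf a a.2 n hn (by rw [← Subgroup.coe_pow, h]; rfl))
  obtain ⟨G₀, p, hst⟩ := setting hG A hAf S hS h1 hinf
  have hCon : Con A (cay S) p := by
    by_contra hc
    have hD := hI (F.card + 1) A Γ (cay S) G₀ 1 p hst hTF hc
    let e : Fin F.card ≃ F := F.equivFin.symm
    have hcl : Subgroup.closure (Set.range fun i : Fin F.card => ((e i : F) : A)) = ⊤ := by
      have hr : (Set.range fun i : Fin F.card => ((e i : F) : A)) = (F : Set A) := by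
        ext x
        constructor
        · rintro ⟨i, rfl⟩
          exact (e i).2
        · intro hx
          exact ⟨e.symm ⟨x, hx⟩, by simp⟩
      rw [hr, hF]
    have := hR A F.card (F.card + 1) (fun i => ((e i : F) : A)) hcl hTF hD
    omega
  obtain ⟨Z, hZ1, hZ2⟩ := hCon
  refine hK Γ (cay S) ((fun a : A => (a : Γ)) '' Z) (hZ1.image Subtype.val_injective.injOn) ?_
  rintro _ ⟨a, ha, rfl⟩ _ ⟨b, hb, rfl⟩ c hc ⟨hx, hy⟩
  have e1 : ∀ a : A, a • (1 : Γ) = (a : Γ) := fun a => by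
    rw [Subgroup.smul_def, smul_eq_mul, mul_one]
  refine hZ2 a ha b hb c hc ⟨fact1 hst hc ?_, fact1' hst hc ?_⟩
  · rw [e1]; exact hx
  · rw [e1]; exact hy

end Pool.Agent.Helper58.VF
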